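import Pool.Agent.helper22.GS.Spec

/-! gs:PD. Elements of prime order of the symplectic group. -/

set_option autoImplicit false

namespace Pool.Agent.GS

open Module

noncomputable section

theorem PD (hSB : SB_stmt) : PD_stmt := by
  classical
  intro F V _ _ _ _ _ B hB g hg r hr hrF hgr hg1
  have hrp : Fact r.Prime := ⟨hr⟩
  have hVfin : Finite V := Module.finite_of_finite F
  set G : V →ₗ[F] V :=
    { toFun := g
      map_add' := hg.1.1
      map_smul' := hg.1.2 } with hG
  have hGa : ∀ v, G v = g v := fun v => rfl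
  set U : Submodule F V := LinearMap.ker (G - LinearMap.id) with hU
  set W : Submodule F V := LinearMap.range (G - LinearMap.id) with hW
  have hUm : ∀ v, v ∈ U ↔ g v = v := by
    intro v
    rw [hU, LinearMap.mem_ker, LinearMap.sub_apply, LinearMap.id_apply, sub_eq_zero, hGa]
  have hWm : ∀ v, g v - v ∈ W := by
    intro v
    rw [hW, LinearMap.mem_range]
    exact ⟨v, rfl⟩
  -- iterates
  have hpow : ∀ (j : ℕ) (v : V), (g ^ j) v - v ∈ W := by
    intro j
    induction j with
    | zero => intro v; simp
    | succ j ih =>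
      intro v
      have h1 : (g ^ (j + 1)) v - v = ((g ^ j) (g v) - g v) + (g v - v) := by
        rw [pow_succ, Equiv.Perm.mul_apply]
        abel
      rw [h1]
      exact W.add_mem (ih _) (hWm v)
  have hr0 : (r : F) ≠ 0 := by
    intro h0
    obtain ⟨p, hp⟩ := CharP.exists F
    have hpp : p.Prime := (CharP.char_is_prime_or_zero F p).resolve_right (CharP.char_ne_zero_of_finite F p)
    have h1 : p ∣ r := (CharP.cast_eq_zero_iff F p r).1 h0
    have h2 : p = r := (Nat.prime_dvd_prime_iff_eq hpp hr).1 h1
    subst h2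
    apply hrF
    have : Fintype F := Fintype.ofFinite F
    obtain ⟨n, hn1, hn2⟩ := FiniteField.card F p
    rw [Nat.card_eq_fintype_card, hn2]
    exact dvd_pow_self p n.2.ne'
  -- orthogonality
  have horth : ∀ w ∈ W, ∀ u ∈ U, B w u = 0 := by
    intro w hw u hu
    rw [hW, LinearMap.mem_range] at hw
    obtain ⟨v, rfl⟩ := hw
    rw [hUm] at hu
    rw [LinearMap.sub_apply, LinearMap.id_apply, hGa, map_sub, LinearMap.sub_apply]
    have h1 := hg.2 v u
    rw [hu] at h1
    rw [h1, sub_self]
  have hsup : ∀ v : V, ∃ u ∈ U, ∃ w ∈ W, v = u + w := by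
    intro v
    set s : V := ∑ j ∈ Finset.range r, (g ^ j) v with hs
    have hsU : s ∈ U := by
      rw [hUm]
      have h1 : g s = ∑ j ∈ Finset.range r, (g ^ (j + 1)) v := by
        rw [← hGa, hs, map_sum]
        refine Finset.sum_congr rfl fun j _ => ?_
        rw [hGa, pow_succ', Equiv.Perm.mul_apply]
      rw [h1]
      have h2 := Finset.sum_range_succ (fun j => (g ^ j) v) r
      have h3 := Finset.sum_range_succ' (fun j => (g ^ j) v) r
      rw [h2] at h3
      simp only [hgr, pow_zero, Equiv.Perm.one_apply] at h3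
      rw [hs]
      exact (add_right_cancel h3).symm
    have hsW : s - (r : F) • v ∈ W := by
      have h1 : s - (r : F) • v = ∑ j ∈ Finset.range r, ((g ^ j) v - v) := by
        rw [Finset.sum_sub_distrib, Finset.sum_const, Finset.card_range, hs, Nat.cast_smul_eq_nsmul]
      rw [h1]
      exact W.sum_mem fun j _ => hpow j v
    refine ⟨(r : F)⁻¹ • s, U.smul_mem _ hsU, -((r : F)⁻¹ • (s - (r : F) • v)),
      W.neg_mem (W.smul_mem _ hsW), ?_⟩
    rw [smul_sub, smul_smul, inv_mul_cancel₀ hr0, one_smul]
    abel
  have hinf : ∀ v, v ∈ U → v ∈ W → v = 0 := by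
    intro v hvU hvW
    apply hB.nd
    intro x
    obtain ⟨u, hu, w, hw, rfl⟩ := hsup x
    rw [map_add, horth v hvW u hu, hB.neg v w, horth w hw v hvU, neg_zero, add_zero]
  -- the restricted form
  set BW : LinearMap.BilinForm F W := B.restrict W with hBW
  have hBWa : ∀ x y : W, BW x y = B x y := fun x y => rfl
  have hAlt : Alt BW := by
    constructor
    · intro v
      rw [hBWa]
      exact hB.alt v
    · intro w hw
      apply Subtype.ext
      apply hB.nd
      intro x
      obtain ⟨u, hu, w', hw', rfl⟩ := hsup x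
      have h1 := hw ⟨w', hw'⟩
      rw [hBWa] at h1
      rw [map_add, horth w w.2 u hu, h1, add_zero]
  obtain ⟨n, b, -⟩ := hSB BW hAlt
  have hWrank : finrank F W = 2 * n := by
    rw [Module.finrank_eq_card_basis b, Fintype.card_sum, Fintype.card_fin]
    ring
  have hrank : finrank F U + finrank F W = finrank F V := by
    have h1 := LinearMap.finrank_range_add_finrank_ker (G - LinearMap.id)
    rw [add_comm]
    exact h1
  have hcardW : Nat.card W = Nat.card F ^ (2 * n) := by
    rw [Module.natCard_eq_pow_finrank (K := F), hWrank]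
  have hWne : ∃ w : W, w ≠ 0 := by
    by_contra h
    push Not at h
    apply hg1
    ext v
    have h1 := h ⟨g v - v, hWm v⟩
    have h2 : g v - v = 0 := congrArg Subtype.val h1
    rw [Equiv.Perm.one_apply]
    exact sub_eq_zero.1 h2
  have hn1 : 1 ≤ n := by
    rcases Nat.eq_zero_or_pos n with h | h
    · exfalso
      rw [h, mul_zero, pow_zero] at hcardW
      obtain ⟨w, hw⟩ := hWne
      have hsub : Subsingleton W := (Nat.card_eq_one_iff_unique.1 hcardW).1
      exact hw (Subsingleton.elim _ _)
    · exact h
  refine ⟨U, n, hUm, hn1, by rw [← hWrank]; exact hrank, ?_⟩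
  -- the action on `W`
  have hgW : ∀ w : W, g w ∈ W := by
    intro w
    have h1 : g w = (g w - w) + w := by abel
    rw [h1]
    exact W.add_mem (hWm _) w.2
  let f : Function.End W := fun w => ⟨g w, hgW w⟩
  have hfpow : ∀ (j : ℕ) (w : W), ((f ^ j) w : V) = (g ^ j) w := by
    intro j
    induction j with
    | zero => intro w; rfl
    | succ j ih =>
      intro w
      rw [pow_succ, pow_succ, Equiv.Perm.mul_apply]
      exact ih (f w)
  have hf : f ^ r ^ 1 = 1 := by
    rw [pow_one]
    funext w
    apply Subtype.ext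
    rw [hfpow, hgr]
    rfl
  have : Fintype W := Fintype.ofFinite W
  have h1 := Equiv.Perm.card_fixedPoints_modEq hf
  have h2 : Fintype.card (Function.fixedPoints f) = 1 := by
    rw [Fintype.card_eq_one_iff]
    refine ⟨⟨(0 : W), ?_⟩, ?_⟩
    · apply Subtype.ext
      show g ((0 : W) : V) = 0
      rw [← hGa]
      exact map_zero G
    · rintro ⟨w, hw⟩
      apply Subtype.ext
      apply Subtype.ext
      have h3 : g (w : V) = w := congrArg Subtype.val hw
      exact hinf w ((hUm _).2 h3) w.2
  rw [h2, ← Nat.card_eq_fintype_card, hcardW] at h1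
  exact (Nat.modEq_iff_dvd' (Nat.one_le_pow _ _ Nat.card_pos)).1 h1.symm

end

end Pool.Agent.GS
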