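import Pool.Agent.helper22.GS.Spec

/-! gs:THO. Assembly for odd degrees. -/

set_option autoImplicit false

namespace Pool.Agent.GS

open Module

noncomputable section

theorem THO_fin (hBF : BF_stmt) (hAO : AO_stmt) {F : Type} [Field F] [Finite F] (r k : ℕ) (τ : F)
    (hτ : τ ≠ 0) (K : Type) [Field K] [Algebra F K] (σ : K) (hHD : HD F K r (2 * k + 1) σ)
    (hMO : ∀ [Finite K] [FiniteDimensional F K], ∃ (α β : K) (δ δ' : F)
      (u w : Basis (Unit ⊕ (Fin k ⊕ Fin k)) F K), α ≠ 0 ∧ β ≠ 0 ∧ δ ≠ 0 ∧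
      δ' ≠ 0 ∧ α * β = σ ∧ Orth (bf F K α) u (nrm τ δ) ∧ Orth (bf F K β) w (nrm τ δ') ∧
      IsSquare (τ * δ * δ') ∧ Algebra.trace F K (u (.inl ()) * w (.inl ())) = 0) :
    ∃ (W : Type) (_ : AddCommGroup W) (_ : Module F W) (C : LinearMap.BilinForm F W)
    (L : List ((W × W) × (F × F))), FiniteDimensional F W ∧ finrank F W = 2 * (2 * k + 1) ∧ Alt C ∧
    L.length = 2 * k + 1 ∧ PL C τ L ∧ NS F r (pr C L) := by
  have hfin : Finite K := hHD.fin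
  have hfd : FiniteDimensional F K := by
    apply FiniteDimensional.of_finrank_pos
    rw [hHD.rk]
    omega
  obtain ⟨α, β, δ, δ', u, w, hα, hβ, hδ, hδ', hαβ, hu, hw, hsq, htr⟩ := hMO
  obtain ⟨L, hL1, hL2, hL3⟩ := hAO r k σ α β τ δ δ' u w hHD hτ hα hβ hδ hδ' hαβ hu hw hsq htr
  obtain ⟨-, hAlt, hrk⟩ := hBF (F := F) (K := K)
  refine ⟨K × K, inferInstance, inferInstance, B0 F K, L, inferInstance, ?_, hAlt, hL1, hL2, hL3⟩
  rw [hrk, hHD.rk]

theorem THO (hBF : BF_stmt) (hHA : HA_stmt) (hHB : HB_stmt) (hHC : HC_stmt) (hMOA : MOA_stmt)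
    (hMOB : MOB_stmt) (hAO : AO_stmt) : THO_stmt := by
  intro F _ _ r k τ hr hr2 hk hDv hτ
  by_cases h2 : ringChar F = 2
  · obtain ⟨K, fK, aK, σ, hHD, -⟩ := hHB r (2 * k + 1) h2 hr hr2 hDv
    refine THO_fin hBF hAO r k τ hτ K σ hHD ?_
    intro _ _
    exact hMOB k h2 hk hHD.rk σ τ hHD.ne hτ
  · by_cases h3 : Nat.card F = 3 ∧ k = 1 ∧ ¬ IsSquare τ
    · obtain ⟨h31, h32, h33⟩ := h3
      subst h32
      have hDv' : Dv 3 r 3 := by
        have := hDv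
        rw [h31] at this
        exact this
      obtain ⟨K, fK, aK, σ, hHD, hns, htr⟩ := hHC (F := F) r h31 hr hr2 hDv'
      refine THO_fin hBF hAO r 1 τ hτ K σ hHD ?_
      intro _ _
      exact hMOA 1 h2 le_rfl hHD.rk σ τ hHD.ne hτ ⟨fun h => absurd h hns, fun h => absurd h h33⟩
        (fun _ _ _ => htr)
    · have hex : ∃ (K : Type) (_ : Field K) (_ : Algebra F K) (σ : K),
          HD F K r (2 * k + 1) σ ∧ (IsSquare σ ↔ IsSquare τ) := by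
        by_cases hs : IsSquare τ
        · obtain ⟨K, fK, aK, σ, hHD, hsq⟩ := (hHA r (2 * k + 1) h2 hr hr2 hDv).1
          exact ⟨K, fK, aK, σ, hHD, ⟨fun _ => hs, fun _ => hsq⟩⟩
        · obtain ⟨K, fK, aK, σ, hHD, hsq⟩ := (hHA r (2 * k + 1) h2 hr hr2 hDv).2
          exact ⟨K, fK, aK, σ, hHD, ⟨fun h => absurd h hsq, fun h => absurd h hs⟩⟩
      obtain ⟨K, fK, aK, σ, hHD, hsq⟩ := hex
      refine THO_fin hBF hAO r k τ hτ K σ hHD ?_
      intro _ _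
      exact hMOA k h2 hk hHD.rk σ τ hHD.ne hτ hsq (fun h1 h4 h5 => absurd ⟨h1, h4, h5⟩ h3)

end

end Pool.Agent.GS
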